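import Pool.Agent.H985R2.BTDefs

set_option autoImplicit false

/-!
# Connection events of sub-rectangles of the random-cluster rectangle

The model is the one of `Pool.Agent.H985R2.BTDefs`: `wired m k` are the (open) edges of the left and
lower sides of the rectangle, `bulk m k` its random edges, `rcP q m k A` is the probability of the
event `A` in the critical random-cluster model, `TouchRight m k ω y` says that the interface touches
the right side at height `y`.
-/

namespace Pool.Agent.X136.NW.Model

open H974 H985BT

/-- `v` lies strictly inside the rectangle `[a, b] × [c, d]` -/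
def Inside (a b c d : ℤ) (v : Vtx) : Prop := (a < v.1 ∧ v.1 < b) ∧ (c < v.2 ∧ v.2 < d)

/-- Some vertex of `I` is joined to some vertex of `J` by open edges of the rectangle
`[a, b] × [c, d]`. The open edges are those of `ω` and the wired ones; `RE a b c d` is the set of all
the edges of the rectangle `[a, b] × [c, d]`. -/
def Linked (m k : ℕ) (a b c d : ℤ) (I J : Set Vtx) (ω : Finset Edg) : Prop :=
  ∃ u ∈ I, ∃ v ∈ J, Reach ((↑ω ∪ ↑(wired m k)) ∩ ↑(RE a b c d)) u v

/-- the open edges cross the rectangle `[a, b] × [c, d]` from left to right -/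
def Crossed (m k : ℕ) (a b c d : ℤ) (ω : Finset Edg) : Prop :=
  Linked m k a b c d {v | v.1 = a ∧ c ≤ v.2 ∧ v.2 ≤ d} {v | v.1 = b ∧ c ≤ v.2 ∧ v.2 ≤ d} ω

/-- `v` is joined by open edges to the boundary of the box of radius `n` around `v`, inside this box -/
def ArmAt (m k n : ℕ) (v : Vtx) (ω : Finset Edg) : Prop :=
  Linked m k (v.1 - n) (v.1 + n) (v.2 - n) (v.2 + n) {v}
    {w | ¬ Inside (v.1 - n) (v.1 + n) (v.2 - n) (v.2 + n) w} ω

end Pool.Agent.X136.NW.Model
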