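import Pool.Agent.X136.NW.Near
import Pool.Agent.X136.NW.Model

set_option autoImplicit false

/-!
# The critical random-cluster model for `q` close to `1`
-/

namespace Pool.Agent.X136.NW

open Finset H974 H12S H973N H985BT
open Pool.Agent.X136.NW.Model

theorem joined_mono {m k : ℕ} {a b c d : ℤ} {I J : Set Vtx} {F G : Finset Edg} (h : F ⊆ G)
    (hF : Linked m k a b c d I J F) : Linked m k a b c d I J G := by
  obtain ⟨u, hu, v, hv, hr⟩ := hF
  exact ⟨u, hu, v, hv, hr.mono (Set.inter_subset_inter_left _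
    (Set.union_subset_union_left _ (by exact_mod_cast h)))⟩

/-- the random edges of a sub-rectangle -/
noncomputable def sub (m k : ℕ) (a b c d : ℤ) : Finset Edg := bulk m k ∩ RE a b c d

theorem pr_joined (m k : ℕ) (a b c d : ℤ) (I J : Set Vtx) (t : ℝ) :
    Pr (fun _ => t) (bulk m k) (Linked m k a b c d I J) =
      PQ t (sub m k a b c d) (CO I J (↑(wired m k) ∩ ↑(RE a b c d))) := by
  have e1 : Pr (fun _ => t) (bulk m k) (Linked m k a b c d I J) =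
      Pr (fun _ => t) (sub m k a b c d) (Linked m k a b c d I J) := by
    apply Pr_local Finset.inter_subset_left
    intro F hF
    have : (↑F ∪ ↑(wired m k)) ∩ (↑(RE a b c d) : Set Edg) =
        (↑(F ∩ sub m k a b c d) ∪ ↑(wired m k)) ∩ (↑(RE a b c d) : Set Edg) := by
      ext e
      simp only [sub, Set.mem_inter_iff, Set.mem_union, Finset.mem_coe, Finset.mem_inter]
      constructor
      · rintro ⟨h | h, h2⟩
        · exact ⟨Or.inl ⟨h, hF h, h2⟩, h2⟩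
        · exact ⟨Or.inr h, h2⟩
      · rintro ⟨⟨h, -, -⟩ | h, h2⟩
        · exact ⟨Or.inl h, h2⟩
        · exact ⟨Or.inr h, h2⟩
    unfold Linked
    rw [this]
    rfl
  rw [e1]
  apply Pr_congr
  intro F hF
  have : (↑F ∪ ↑(wired m k)) ∩ (↑(RE a b c d) : Set Edg) =
      ↑F ∪ (↑(wired m k) ∩ ↑(RE a b c d)) := by
    ext e
    simp only [Set.mem_inter_iff, Set.mem_union, Finset.mem_coe]
    constructor
    · rintro ⟨h | h, h2⟩
      · exact Or.inl h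
      · exact Or.inr ⟨h, h2⟩
    · rintro (h | ⟨h, h2⟩)
      · exact ⟨Or.inl h, (Finset.mem_inter.mp (hF h)).2⟩
      · exact ⟨Or.inr h, h2⟩
  unfold Linked CO Cn
  rw [this]

theorem sub_full {m k : ℕ} {a b c d : ℤ} (ha : 0 ≤ a) (hb : b ≤ m) (hc : 0 ≤ c) (hd : d ≤ k) :
    RE (a + 1) (b - 1) (c + 1) (d - 1) ⊆ sub m k a b c d := by
  rintro ⟨x, y, _ | _⟩ h
  · rw [sub, Finset.mem_inter, mem_bulk, mem_RE_false]
    rw [mem_RE_false] at h
    refine ⟨Or.inr ⟨rfl, ?_, ?_⟩, ?_⟩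
    · simp only; omega
    · simp only; omega
    · omega
  · rw [sub, Finset.mem_inter, mem_bulk, mem_RE_true]
    rw [mem_RE_true] at h
    refine ⟨Or.inl ⟨rfl, ?_, ?_⟩, ?_⟩
    · simp only; omega
    · simp only; omega
    · omega

/-- the deviation of the two product measures -/
noncomputable def dev (q : ℝ) : ℝ := rr q / (1 + rr q) - 1 / 2

theorem dev_spec {q : ℝ} (hq : 0 < q) : 0 ≤ dev q ∧ dev q ≤ 1/2 ∧ dev q ≤ |q - 1| / 2 ∧
    rr q / (1 + rr q) = 1/2 + dev q ∧ 1 / (1 + rr q) = 1/2 - dev q := by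
  obtain ⟨h1, h2, h3, h4⟩ := rr_close hq
  unfold dev
  refine ⟨by linarith, by linarith, h1, by ring, by rw [h2]; ring⟩

/-- **The joint law of connection events.** -/
theorem joint_close : ∃ C : ℝ, 1 ≤ C ∧ ∀ q : ℝ, 0 < q → ∀ m k : ℕ, 1 ≤ m → 1 ≤ k →
    ∀ (s : ℕ) (a b c d : Fin s → ℤ) (I J : Fin s → Set Vtx),
    (∀ i, 0 ≤ a i ∧ b i ≤ m ∧ 0 ≤ c i ∧ d i ≤ k) →
    (∀ i, ∀ v ∈ I i ∪ J i, ¬ Inside (a i) (b i) (c i) (d i) v) →
    ∀ T : Set (Set (Fin s)),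
    |rcP q m k (fun ω => {i | Linked m k (a i) (b i) (c i) (d i) (I i) (J i) ω} ∈ T) -
      rcP 1 m k (fun ω => {i | Linked m k (a i) (b i) (c i) (d i) (I i) (J i) ω} ∈ T)| ≤
      C * s * |q - 1| * ((max m k : ℕ) : ℝ) ^ (3/4 : ℝ) := by
  obtain ⟨C, hC, hnear⟩ := near_all
  refine ⟨C, hC, ?_⟩
  intro q hq m k hm hk s a b c d I J hin hoff T
  obtain ⟨d0, d1, d2, d3, d4⟩ := dev_spec hq
  set M := max m k with hM
  have hM1 : 1 ≤ M := hm.trans (le_max_left _ _)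
  have hMp : 0 ≤ (M:ℝ) ^ (3/4 : ℝ) := by positivity
  set A : Fin s → Finset Edg → Prop := fun i ω =>
    Linked m k (a i) (b i) (c i) (d i) (I i) (J i) ω with hA
  obtain ⟨hp, hmn⟩ := mon_of_events Finset.univ (bulk m k) A
    (fun i _ F G h _ hF => joined_mono h hF) (fun ω => ind ({i | A i ω} ∈ T))
    (fun F G h => by
      have : {i | A i F} = {i | A i G} := by
        ext i
        exact h i (Finset.mem_univ _)
      rw [this])
    (fun F => ⟨ind_nonneg _, ind_le_one _⟩)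
  have h := (rto_fk m k hq).compare hp hmn
  rw [rcP_eq, rcP_one]
  refine h.trans ?_
  rw [d3, d4, Ex_sum, Ex_sum, ← sum_sub_distrib]
  have hi : ∀ i ∈ (Finset.univ : Finset (Fin s)),
      Ex (fun _ => 1/2 + dev q) (bulk m k) (fun ω => ind (A i ω)) -
        Ex (fun _ => 1/2 - dev q) (bulk m k) (fun ω => ind (A i ω)) ≤
      C * dev q * (M:ℝ) ^ (3/4 : ℝ) := by
    intro i _
    obtain ⟨i1, i2, i3, i4⟩ := hin i
    have e1 := pr_joined m k (a i) (b i) (c i) (d i) (I i) (J i) (1/2 + dev q)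
    have e2 := pr_joined m k (a i) (b i) (c i) (d i) (I i) (J i) (1/2 - dev q)
    unfold Pr at e1 e2
    rw [hA]
    simp only
    rw [e1, e2]
    have hmM : (m:ℤ) ≤ M := by exact_mod_cast le_max_left m k
    have hkM : (k:ℤ) ≤ M := by exact_mod_cast le_max_right m k
    refine hnear M hM1 (dev q) d0 d1 (a i) (b i) (c i) (d i) (by omega) (by omega)
      _ _ (I i) (J i) ?_ (hoff i) Finset.inter_subset_right (sub_full i1 i2 i3 i4)
    rw [Set.disjoint_left]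
    rintro e ⟨h1, -⟩ h2
    exact Finset.disjoint_left.mp (bulk_disj m k) (Finset.mem_inter.mp h2).1 h1
  calc 2 * ∑ i : Fin s, (Ex (fun _ => 1/2 + dev q) (bulk m k) (fun ω => ind (A i ω)) -
        Ex (fun _ => 1/2 - dev q) (bulk m k) (fun ω => ind (A i ω)))
      ≤ 2 * ∑ _i : Fin s, C * dev q * (M:ℝ) ^ (3/4 : ℝ) :=
        mul_le_mul_of_nonneg_left (sum_le_sum hi) (by norm_num)
    _ = 2 * (s * (C * dev q * (M:ℝ) ^ (3/4 : ℝ))) := by
        rw [sum_const, Finset.card_univ, Fintype.card_fin, nsmul_eq_mul]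
    _ = C * s * (2 * dev q) * (M:ℝ) ^ (3/4 : ℝ) := by ring
    _ ≤ C * s * |q - 1| * (M:ℝ) ^ (3/4 : ℝ) := by
        apply mul_le_mul_of_nonneg_right _ hMp
        exact mul_le_mul_of_nonneg_left (by linarith) (by positivity)

/-! ### The places where the interface touches the free sides -/

theorem mem_cut_r {m k : ℕ} {y : ℤ} (h1 : 1 ≤ y) (h2 : y ≤ k) : ((m : ℤ), y, true) ∈ cut m k := by
  unfold cut
  rw [mem_union]
  left
  rw [mem_image]
  exact ⟨y, Finset.mem_Icc.mpr ⟨h1, h2⟩, rfl⟩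

theorem inFree_right {m k : ℕ} {ω : Finset Edg} {y : ℕ} (hy : y ≤ k) :
    InFree m k ω ((m : ℤ), (y : ℤ)) := by
  unfold InFree
  obtain ⟨j, rfl⟩ := Nat.exists_eq_add_of_le hy
  clear hy
  induction j generalizing y with
  | zero => exact DReach.refl _ _
  | succ j ih =>
    have h1 := ih (y := y + 1)
    rw [show y + 1 + j = y + (j + 1) by ring] at h1
    refine h1.trans (DAdj.reach ?_)
    refine ⟨((m : ℤ), ((y : ℤ) + 1), true), ?_, Or.inr ?_⟩
    · right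
      rw [Finset.mem_coe]
      apply mem_cut_r
      · omega
      · push_cast; omega
    · simp

theorem touchRight_iff {m k : ℕ} {ω : Finset Edg} {y : ℕ} (hy : y ≤ k) :
    TouchRight m k ω y ↔ InWired m k ω ((m : ℤ), (y : ℤ)) := by
  unfold TouchRight Interface
  constructor
  · rintro ⟨f, -, -, -, h, -⟩
    exact h
  · intro h
    exact ⟨((m : ℤ), (y : ℤ)), rfl, Or.inl rfl, Or.inl rfl, h, inFree_right hy⟩

theorem all_sub {m k : ℕ} {ω : Finset Edg} (hω : ω ⊆ bulk m k) :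
    (↑ω ∪ ↑(wired m k) : Set Edg) ∩ ↑(RE (0:ℤ) m 0 k) = ↑ω ∪ ↑(wired m k) := by
  apply Set.inter_eq_left.mpr
  rintro ⟨x, y, b⟩ (h | h)
  · have h2 := hω h
    rw [mem_bulk] at h2
    rcases h2 with ⟨h3, h4, h5⟩ | ⟨h3, h4, h5⟩ <;> simp only at h3 h4 h5 <;> subst h3
    · rw [Finset.mem_coe, mem_RE_true]; omega
    · rw [Finset.mem_coe, mem_RE_false]; omega
  · rw [Finset.mem_coe, mem_wired] at h
    rcases h with ⟨h3, h4, h5⟩ | ⟨h3, h4, h5⟩ <;> simp only at h3 h4 h5 <;> subst h3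
    · rw [Finset.mem_coe, mem_RE_true]; omega
    · rw [Finset.mem_coe, mem_RE_false]; omega

theorem rcP_congr {q : ℝ} {m k : ℕ} {A B : Finset Edg → Prop}
    (h : ∀ ω, ω ⊆ bulk m k → (A ω ↔ B ω)) : rcP q m k A = rcP q m k B := by
  rw [rcP_eq, rcP_eq]
  unfold Ew
  congr 1
  apply sum_congr rfl
  intro F hF
  simp only
  rw [ind_congr (h F (mem_powerset.mp hF))]

/-- **The joint law of the visits of sets of heights.** -/
theorem touch_close : ∃ C : ℝ, 1 ≤ C ∧ ∀ q : ℝ, 0 < q → ∀ m k : ℕ, 1 ≤ m → 1 ≤ k →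
    ∀ (s : ℕ) (Y : Fin s → Set ℕ), (∀ i, ∀ y ∈ Y i, y ≤ k) → ∀ T : Set (Set (Fin s)),
    |rcP q m k (fun ω => {i | ∃ y ∈ Y i, TouchRight m k ω y} ∈ T) -
      rcP 1 m k (fun ω => {i | ∃ y ∈ Y i, TouchRight m k ω y} ∈ T)| ≤
      C * s * |q - 1| * ((max m k : ℕ) : ℝ) ^ (3/4 : ℝ) := by
  obtain ⟨C, hC, h⟩ := joint_close
  refine ⟨C, hC, ?_⟩
  intro q hq m k hm hk s Y hY T
  have key : ∀ q' : ℝ, rcP q' m k (fun ω => {i | ∃ y ∈ Y i, TouchRight m k ω y} ∈ T) =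
      rcP q' m k (fun ω => {i | Linked m k 0 m 0 k {((0:ℤ), (0:ℤ))}
        {v | ∃ y ∈ Y i, v = ((m:ℤ), (y:ℤ))} ω} ∈ T) := by
    intro q'
    apply rcP_congr
    intro ω hω
    have : {i | ∃ y ∈ Y i, TouchRight m k ω y} = {i | Linked m k 0 m 0 k {((0:ℤ), (0:ℤ))}
        {v | ∃ y ∈ Y i, v = ((m:ℤ), (y:ℤ))} ω} := by
      ext i
      change (∃ y ∈ Y i, TouchRight m k ω y) ↔ Linked m k 0 m 0 k {((0:ℤ), (0:ℤ))}
        {v | ∃ y ∈ Y i, v = ((m:ℤ), (y:ℤ))} ω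
      unfold Linked
      rw [all_sub hω]
      constructor
      · rintro ⟨y, hy, ht⟩
        exact ⟨_, rfl, _, ⟨y, hy, rfl⟩, (touchRight_iff (hY i y hy)).mp ht⟩
      · rintro ⟨u, hu, v, ⟨y, hy, rfl⟩, ht⟩
        rw [Set.mem_singleton_iff] at hu
        rw [hu] at ht
        exact ⟨y, hy, (touchRight_iff (hY i y hy)).mpr ht⟩
    rw [this]
  rw [key, key]
  refine h q hq m k hm hk s (fun _ => 0) (fun _ => m) (fun _ => 0) (fun _ => k)
    (fun _ => {((0:ℤ), (0:ℤ))}) (fun i => {v | ∃ y ∈ Y i, v = ((m:ℤ), (y:ℤ))})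
    (fun i => ⟨le_rfl, le_rfl, le_rfl, le_rfl⟩) ?_ T
  rintro i v (hv | ⟨y, hy, hv⟩) hI
  · rw [Set.mem_singleton_iff] at hv
    rw [hv] at hI
    exact lt_irrefl _ hI.1.1
  · rw [hv] at hI
    exact lt_irrefl _ hI.1.2

/-! ### Crossings and arms -/

/-- increasing events are between the two product measures -/
theorem rcP_sandwich {q : ℝ} (hq : 0 < q) (m k : ℕ) {A : Finset Edg → Prop}
    (hA : ∀ F G : Finset Edg, F ⊆ G → A F → A G) :
    Pr (fun _ => 1/2 - dev q) (bulk m k) A ≤ rcP q m k A ∧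
      rcP q m k A ≤ Pr (fun _ => 1/2 + dev q) (bulk m k) A := by
  obtain ⟨d0, d1, d2, d3, d4⟩ := dev_spec hq
  have hmon : Mon (bulk m k) (fun F => ind (A F)) := fun F G h _ => ind_mono (hA F G h)
  have h1 := (rto_fk m k hq).ew_le hmon
  have h2 := (rto_fk m k hq).le_ew hmon
  rw [rcP_eq]
  unfold Pr
  rw [← d3, ← d4]
  exact ⟨h2, h1⟩

theorem re_bulk {m k : ℕ} {a b c d : ℤ} (ha : 1 ≤ a) (hb : b ≤ m) (hc : 1 ≤ c) (hd : d ≤ k) :
    RE a b c d ⊆ bulk m k := by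
  rintro ⟨x, y, _ | _⟩ h
  · rw [mem_bulk]
    rw [mem_RE_false] at h
    refine Or.inr ⟨rfl, ?_, ?_⟩ <;> simp only <;> omega
  · rw [mem_bulk]
    rw [mem_RE_true] at h
    refine Or.inl ⟨rfl, ?_, ?_⟩ <;> simp only <;> omega

theorem no_wired {m k : ℕ} {a b c d : ℤ} (ha : 1 ≤ a) (hb : b ≤ m) (hc : 1 ≤ c) (hd : d ≤ k)
    (F : Finset Edg) :
    (↑F ∪ ↑(wired m k) : Set Edg) ∩ ↑(RE a b c d) = ↑F ∩ ↑(RE a b c d) := by
  ext e
  simp only [Set.mem_inter_iff, Set.mem_union, Finset.mem_coe]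
  constructor
  · rintro ⟨h | h, h2⟩
    · exact ⟨h, h2⟩
    · exact absurd h (Finset.disjoint_left.mp (bulk_disj m k) (re_bulk ha hb hc hd h2))
  · rintro ⟨h, h2⟩
    exact ⟨Or.inl h, h2⟩

theorem crossed_iff {m k : ℕ} {a b c d : ℤ} (ha : 1 ≤ a) (hab : a < b) (hb : b ≤ m) (hc : 1 ≤ c)
    (hd : d ≤ k) (F : Finset Edg) : Crossed m k a b c d F ↔ LRc a b c d F := by
  unfold Crossed Linked
  rw [no_wired ha hb hc hd]
  constructor
  · rintro ⟨u, hu, v, hv, h⟩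
    exact LRc_of_reach hab h hu.1 hv.1
  · rintro ⟨y, y', h1, h2, h3⟩
    refine ⟨(a, y), ⟨rfl, h1⟩, (b, y'), ⟨rfl, h2⟩, h3.mono ?_⟩
    exact Set.inter_subset_inter_right _ (by exact_mod_cast LRE_subset_RE)

theorem arm_iff {m k n : ℕ} (hn : 1 ≤ n) {v : Vtx} (h1 : n < v.1) (h2 : v.1 + n ≤ m) (h3 : n < v.2)
    (h4 : v.2 + n ≤ k) (F : Finset Edg) :
    ArmAt m k n v F ↔ Arm n ((trl (-v.1) (-v.2)).mp F) := by
  unfold ArmAt Linked
  rw [no_wired (by omega) h2 (by omega) h4]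
  have hbox : (trl (-v.1) (-v.2)).mp (RE (v.1 - n) (v.1 + n) (v.2 - n) (v.2 + n)) = boxE n := by
    rw [trl_RE]; unfold boxE; congr 1 <;> ring
  have himg : (trl (-v.1) (-v.2)).φ '' (↑F ∩ ↑(RE (v.1 - n) (v.1 + n) (v.2 - n) (v.2 + n))) =
      ↑((trl (-v.1) (-v.2)).mp F) ∩ ↑(boxE n) := by
    rw [← hbox, ← Finset.coe_inter, ← Finset.coe_inter, ← LSym.mp_inter, LSym.coe_mp]
  have hv0 : (trl (-v.1) (-v.2)).ψ v = (0, 0) := by
    obtain ⟨x, y⟩ := v
    rw [trl_ψ]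
    simp
  constructor
  · rintro ⟨u, hu, w, hw, h⟩
    rw [Set.mem_singleton_iff] at hu
    subst hu
    have h5 := (trl (-u.1) (-u.2)).reach h
    rw [himg, hv0] at h5
    have hw2 : (trl (-u.1) (-u.2)).ψ w = (w.1 - u.1, w.2 - u.2) := by
      obtain ⟨x, y⟩ := w
      rw [trl_ψ, ← sub_eq_add_neg, ← sub_eq_add_neg]
    rw [hw2] at h5
    unfold Inside at hw
    simp only [Set.mem_ofPred_eq] at hw
    obtain ⟨z, z1, z2, z3⟩ := first_exit (a := -(n:ℤ)) (b := n) (c := -(n:ℤ)) (d := n)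
      (u := ((0:ℤ), (0:ℤ))) (by unfold inR; simp only; omega) (h5.mono Set.inter_subset_left)
      (by simp only; omega)
    exact ⟨z, ⟨z1, z2⟩, z3⟩
  · rintro ⟨z, ⟨z1, z2⟩, z3⟩
    refine ⟨v, rfl, (z.1 + v.1, z.2 + v.2), ?_, ?_⟩
    · unfold Inside
      simp only [Set.mem_ofPred_eq]
      unfold inR at z1
      omega
    · rw [← (trl (-v.1) (-v.2)).reach_iff, himg, hv0, trl_ψ]
      have e : (z.1 + v.1 + -v.1, z.2 + v.2 + -v.2) = z := by
        obtain ⟨x, y⟩ := z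
        simp
      rw [e]
      exact z3

end Pool.Agent.X136.NW
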