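import Pool.Agent.X136.NW.Dom
import Pool.Agent.X136.FK.Rc
import Pool.Agent.H985R2.BTDefs

set_option autoImplicit false

/-!
# The random-cluster weights of the rectangle: opening an edge
-/

namespace Pool.Agent.X136.NW

open Finset H974 H985BT
open Pool.Agent.X136.FK (cl Ks Ks_fin Ks_insert_le Ks_le_insert)

/-- the vertices of the rectangle -/
def vs (m k : ℕ) : Set Vtx := {v | (0 ≤ v.1 ∧ v.1 ≤ m) ∧ (0 ≤ v.2 ∧ v.2 ≤ k)}

theorem vs_fin (m k : ℕ) : (vs m k).Finite := by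
  have h : vs m k ⊆ ↑(Finset.Icc (0:ℤ) m ×ˢ Finset.Icc (0:ℤ) k) := by
    intro v hv
    rw [Finset.mem_coe, Finset.mem_product, Finset.mem_Icc, Finset.mem_Icc]
    exact hv
  exact (Finset.finite_toSet _).subset h

theorem clusters_eq (m k : ℕ) (F : Finset Edg) :
    clusters m k F = (Ks (↑F ∪ ↑(wired m k)) (vs m k)).ncard := by
  unfold clusters Ks vs cl
  congr 1
  ext K
  constructor
  · rintro ⟨v, h1, h2, h3⟩
    exact ⟨v, ⟨h1, h2⟩, h3⟩
  · rintro ⟨v, ⟨h1, h2⟩, h3⟩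
    exact ⟨v, h1, h2, h3⟩

theorem clusters_insert (m k : ℕ) (e : Edg) (F : Finset Edg) :
    clusters m k (insert e F) = clusters m k F ∨
      clusters m k F = clusters m k (insert e F) + 1 := by
  have h1 := Ks_insert_le (↑F ∪ ↑(wired m k)) e (vs_fin m k)
  have h2 := Ks_le_insert (↑F ∪ ↑(wired m k)) e (vs_fin m k)
  rw [clusters_eq, clusters_eq, Finset.coe_insert, Set.insert_union]
  omega

theorem mem_wired {m k : ℕ} {e : Edg} : e ∈ wired m k ↔
    (e.2.2 = true ∧ e.2.1 = 0 ∧ 0 ≤ e.1 ∧ e.1 < m) ∨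
      (e.2.2 = false ∧ e.1 = 0 ∧ 0 ≤ e.2.1 ∧ e.2.1 < k) := by
  obtain ⟨x, y, b⟩ := e
  unfold wired
  simp only [mem_union, mem_image, mem_Ico, Prod.mk.injEq]
  constructor
  · rintro (⟨z, h, rfl, rfl, rfl⟩ | ⟨z, h, rfl, rfl, rfl⟩)
    · exact Or.inl ⟨rfl, rfl, h⟩
    · exact Or.inr ⟨rfl, rfl, h⟩
  · rintro (⟨rfl, rfl, h⟩ | ⟨rfl, rfl, h⟩)
    · exact Or.inl ⟨x, h, rfl, rfl, rfl⟩
    · exact Or.inr ⟨y, h, rfl, rfl, rfl⟩

theorem mem_bulk {m k : ℕ} {e : Edg} : e ∈ bulk m k ↔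
    (e.2.2 = true ∧ (0 ≤ e.1 ∧ e.1 < m) ∧ (1 ≤ e.2.1 ∧ e.2.1 ≤ k)) ∨
      (e.2.2 = false ∧ (1 ≤ e.1 ∧ e.1 ≤ m) ∧ (0 ≤ e.2.1 ∧ e.2.1 < k)) := by
  obtain ⟨x, y, b⟩ := e
  unfold bulk
  simp only [mem_union, mem_image, mem_product, mem_Ico, mem_Icc, Prod.mk.injEq, Prod.exists]
  constructor
  · rintro (⟨z, t, h, rfl, rfl, rfl⟩ | ⟨z, t, h, rfl, rfl, rfl⟩)
    · exact Or.inl ⟨rfl, h⟩
    · exact Or.inr ⟨rfl, h⟩
  · rintro (⟨rfl, h⟩ | ⟨rfl, h⟩)
    · exact Or.inl ⟨x, y, h, rfl, rfl, rfl⟩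
    · exact Or.inr ⟨x, y, h, rfl, rfl, rfl⟩

theorem bulk_disj (m k : ℕ) : Disjoint (bulk m k) (wired m k) := by
  rw [Finset.disjoint_left]
  intro e h1 h2
  rw [mem_bulk] at h1
  rw [mem_wired] at h2
  rcases h1 with ⟨a, b, c⟩ | ⟨a, b, c⟩ <;> rcases h2 with ⟨a', b', c'⟩ | ⟨a', b', c'⟩
  · omega
  · rw [a] at a'; exact absurd a' (by simp)
  · rw [a] at a'; exact absurd a' (by simp)
  · omega

theorem card_ins {m k : ℕ} {e : Edg} {F : Finset Edg} (he : e ∈ bulk m k) (heF : e ∉ F) :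
    (insert e F ∪ wired m k).card = (F ∪ wired m k).card + 1 := by
  rw [insert_union, card_insert_of_notMem]
  rw [mem_union]
  rintro (h | h)
  · exact heF h
  · exact Finset.disjoint_left.mp (bulk_disj m k) he h

theorem weight_pos {q : ℝ} (hq : 0 < q) (m k : ℕ) (F : Finset Edg) : 0 < weight q m k F := by
  unfold weight
  have hs : 0 < Real.sqrt q := Real.sqrt_pos.2 hq
  positivity

/-- the ratio -/
noncomputable def rr (q : ℝ) : ℝ := max (Real.sqrt q) (Real.sqrt q)⁻¹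

theorem rr_one {q : ℝ} (hq : 0 < q) : 1 ≤ rr q := by
  have hs : 0 < Real.sqrt q := Real.sqrt_pos.2 hq
  have hm1 := le_max_left (Real.sqrt q) (Real.sqrt q)⁻¹
  have hm2 := le_max_right (Real.sqrt q) (Real.sqrt q)⁻¹
  unfold rr
  by_contra h
  push Not at h
  have h1 := lt_of_le_of_lt hm1 h
  have h2 := lt_of_le_of_lt hm2 h
  have h3 : Real.sqrt q * (Real.sqrt q)⁻¹ = 1 := mul_inv_cancel₀ hs.ne'
  have h4 : 0 < (Real.sqrt q)⁻¹ := by positivity
  nlinarith

/-- **Opening an edge changes the weight at most by the factor `max (√q) (1/√q)`.** -/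
theorem rto_fk (m k : ℕ) {q : ℝ} (hq : 0 < q) : Rto (bulk m k) (weight q m k) (rr q) := by
  have hs : 0 < Real.sqrt q := Real.sqrt_pos.2 hq
  have hss : Real.sqrt q * Real.sqrt q = q := Real.mul_self_sqrt hq.le
  have hm1 : Real.sqrt q ≤ rr q := le_max_left (Real.sqrt q) (Real.sqrt q)⁻¹
  have hm2 : (Real.sqrt q)⁻¹ ≤ rr q := le_max_right (Real.sqrt q) (Real.sqrt q)⁻¹
  have h2 : 1 ≤ rr q * Real.sqrt q := by
    calc (1:ℝ) = (Real.sqrt q)⁻¹ * Real.sqrt q := (inv_mul_cancel₀ hs.ne').symm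
      _ ≤ _ := mul_le_mul_of_nonneg_right hm2 hs.le
  have e1 : ∀ a b : ℕ, Real.sqrt q ^ a * q ^ (b + 1) =
      (Real.sqrt q ^ (a + 1) * q ^ b) * Real.sqrt q := by
    intro a b
    rw [pow_succ q, pow_succ (Real.sqrt q)]
    calc Real.sqrt q ^ a * (q ^ b * q) = Real.sqrt q ^ a * q ^ b * q := by ring
      _ = Real.sqrt q ^ a * q ^ b * (Real.sqrt q * Real.sqrt q) := by rw [hss]
      _ = _ := by ring
  refine ⟨rr_one hq, fun F _ => weight_pos hq m k F, ?_, ?_⟩
  · intro F _ e he heF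
    unfold weight
    rw [card_ins he heF]
    rcases clusters_insert m k e F with h | h
    · rw [h, pow_succ]
      have : 0 < Real.sqrt q ^ (F ∪ wired m k).card * q ^ clusters m k F := by positivity
      nlinarith
    · rw [h, e1]
      have : 0 < Real.sqrt q ^ ((F ∪ wired m k).card + 1) * q ^ clusters m k (insert e F) := by
        positivity
      nlinarith
  · intro F _ e he heF
    unfold weight
    rw [card_ins he heF]
    rcases clusters_insert m k e F with h | h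
    · rw [h, pow_succ]
      have : 0 < Real.sqrt q ^ (F ∪ wired m k).card * q ^ clusters m k F := by positivity
      nlinarith
    · rw [h, e1]
      have : 0 < Real.sqrt q ^ ((F ∪ wired m k).card + 1) * q ^ clusters m k (insert e F) := by
        positivity
      nlinarith

/-- the parameters of the two product measures are close to `1 / 2` -/
theorem rr_close {q : ℝ} (hq : 0 < q) :
    rr q / (1 + rr q) - 1 / 2 ≤ |q - 1| / 2 ∧ 1 / (1 + rr q) = 1 - rr q / (1 + rr q) ∧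
      1 / 2 ≤ rr q / (1 + rr q) ∧ rr q / (1 + rr q) ≤ 1 := by
  have h1 := rr_one hq
  have hr : 0 < 1 + rr q := by linarith
  refine ⟨?_, ?_, ?_, ?_⟩
  · have hs : 0 < Real.sqrt q := Real.sqrt_pos.2 hq
    have hss : Real.sqrt q * Real.sqrt q = q := Real.mul_self_sqrt hq.le
    have key : rr q / (1 + rr q) - 1 / 2 = |Real.sqrt q - 1| / (2 * (1 + Real.sqrt q)) := by
      unfold rr
      rcases le_total 1 (Real.sqrt q) with h | h
      · have : (Real.sqrt q)⁻¹ ≤ Real.sqrt q := (inv_le_one_of_one_le₀ h).trans h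
        rw [max_eq_left this, abs_of_nonneg (by linarith)]
        field_simp
        ring
      · have : Real.sqrt q ≤ (Real.sqrt q)⁻¹ := h.trans ((one_le_inv₀ hs).mpr h)
        rw [max_eq_right this, abs_of_nonpos (by linarith)]
        field_simp
        ring
    rw [key]
    have e2 : |q - 1| = |Real.sqrt q - 1| * (Real.sqrt q + 1) := by
      rw [← abs_of_pos (show 0 < Real.sqrt q + 1 by linarith), ← abs_mul]
      congr 1
      nlinarith
    rw [e2, div_le_div_iff₀ (by positivity) (by norm_num)]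
    have h5 : 0 ≤ |Real.sqrt q - 1| := abs_nonneg _
    nlinarith [mul_nonneg h5 hs.le, mul_nonneg (mul_nonneg h5 hs.le) hs.le]
  · field_simp
    ring
  · rw [div_le_div_iff₀ (by norm_num) hr]
    linarith
  · rw [div_le_one hr]
    linarith

/-- the event probabilities of the random-cluster model -/
theorem rcP_eq (q : ℝ) (m k : ℕ) (A : Finset Edg → Prop) :
    rcP q m k A = Ew (weight q m k) (bulk m k) (fun F => ind (A F)) := by
  classical
  unfold rcP Ew
  congr 1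
  rw [sum_filter]
  apply sum_congr rfl
  intro F _
  by_cases h : A F
  · simp only [if_pos h, ind_of h, mul_one]
  · simp only [if_neg h, ind_not_of h, mul_zero]

theorem rcP_one (m k : ℕ) (A : Finset Edg → Prop) :
    rcP 1 m k A = Ex (fun _ => 1 / 2) (bulk m k) (fun F => ind (A F)) := by
  have h : ∀ F, weight 1 m k F = 1 := by
    intro F
    unfold weight
    rw [Real.sqrt_one, one_pow, one_pow, one_mul]
  rw [rcP_eq, Ex_half]
  unfold Ew
  simp only [h, one_mul]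
  rw [sum_const, card_powerset]
  simp

end Pool.Agent.X136.NW
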