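import Pool.Agent.H974R2.Basic

set_option autoImplicit false

/-!
# Comparison of weights on the subsets of a finite set with product measures
-/

namespace Pool.Agent.X136.NW

open Finset H974

section
variable {E : Type*} [DecidableEq E]

/-- monotone functions on the subsets of `S` -/
def Mon (S : Finset E) (f : Finset E → ℝ) : Prop := ∀ F G, F ⊆ G → G ⊆ S → f F ≤ f G

theorem Mon.low {S : Finset E} {a : E} {f : Finset E → ℝ}
    (h : Mon (insert a S) f) : Mon S f :=
  fun _ _ h1 h2 => h _ _ h1 (h2.trans (subset_insert _ _))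

theorem Mon.up {S : Finset E} {a : E} {f : Finset E → ℝ}
    (h : Mon (insert a S) f) : Mon S (fun F => f (insert a F)) :=
  fun _ _ h1 h2 => h _ _ (insert_subset_insert _ h1) (insert_subset_insert _ h2)

theorem sum_ins {S : Finset E} {a : E} (ha : a ∉ S) (g : Finset E → ℝ) :
    ∑ F ∈ (insert a S).powerset, g F =
      ∑ F ∈ S.powerset, g F + ∑ F ∈ S.powerset, g (insert a F) :=
  Finset.sum_powerset_insert ha _

/-- domination from above -/
theorem dom_up {r : ℝ} (hr : 0 < r) (S : Finset E) : ∀ (w f : Finset E → ℝ),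
    (∀ F, F ⊆ S → 0 < w F) → (∀ F, F ⊆ S → ∀ e ∈ S, e ∉ F → w (insert e F) ≤ r * w F) →
    Mon S f → ∑ F ∈ S.powerset, w F * f F ≤
      Ex (fun _ => r / (1 + r)) S f * ∑ F ∈ S.powerset, w F := by
  induction S using Finset.induction_on with
  | empty =>
    intro w f _ _ _
    simp [Ex_empty, mul_comm]
  | insert a S ha ih =>
    intro w f hw hw2 hf
    have hS := subset_insert a S
    have i0 := ih w f (fun F h => hw F (h.trans hS))
      (fun F h e he heF => hw2 F (h.trans hS) e (hS he) heF) hf.low
    have i1 := ih (fun F => w (insert a F)) (fun F => f (insert a F))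
      (fun F h => hw _ (insert_subset_insert _ h))
      (fun F h e he heF => by
        rw [Finset.insert_comm]
        refine hw2 _ (insert_subset_insert _ h) e (hS he) ?_
        rw [mem_insert]
        rintro (h1 | h1)
        · exact ha (h1 ▸ he)
        · exact heF h1) hf.up
    have hEx : Ex (fun _ => r / (1 + r)) S f ≤
        Ex (fun _ => r / (1 + r)) S (fun F => f (insert a F)) := by
      apply Ex_mono
      · intro _
        constructor
        · positivity
        · rw [div_le_one (by linarith)]
          linarith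
      · intro F hF
        exact hf _ _ (subset_insert _ _) (insert_subset_insert _ hF)
    have hW : ∑ F ∈ S.powerset, w (insert a F) ≤ r * ∑ F ∈ S.powerset, w F := by
      rw [mul_sum]
      apply sum_le_sum
      intro F hF
      rw [mem_powerset] at hF
      exact hw2 F (hF.trans hS) a (mem_insert_self _ _) (fun h => ha (hF h))
    have hW0 : 0 ≤ ∑ F ∈ S.powerset, w F :=
      sum_nonneg (fun F hF => (hw F ((mem_powerset.mp hF).trans hS)).le)
    rw [sum_ins ha, sum_ins ha, Ex_insert _ ha]
    set W0 := ∑ F ∈ S.powerset, w F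
    set W1 := ∑ F ∈ S.powerset, w (insert a F)
    set E0 := Ex (fun _ => r / (1 + r)) S f
    set E1 := Ex (fun _ => r / (1 + r)) S (fun F => f (insert a F))
    have h1r : 0 < 1 + r := by linarith
    have key : E0 * W0 + E1 * W1 ≤ (r / (1 + r) * E1 + (1 - r / (1 + r)) * E0) * (W0 + W1) := by
      have e1 : (r / (1 + r) * E1 + (1 - r / (1 + r)) * E0) * (W0 + W1) - (E0 * W0 + E1 * W1) =
          (E1 - E0) * (r * W0 - W1) / (1 + r) := by
        field_simp
        ring
      have e2 : 0 ≤ (E1 - E0) * (r * W0 - W1) / (1 + r) :=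
        div_nonneg (mul_nonneg (by linarith) (by linarith)) h1r.le
      linarith
    exact (add_le_add i0 i1).trans key

/-- domination from below -/
theorem dom_low {r : ℝ} (hr : 0 < r) (S : Finset E) : ∀ (w f : Finset E → ℝ),
    (∀ F, F ⊆ S → 0 < w F) → (∀ F, F ⊆ S → ∀ e ∈ S, e ∉ F → w F ≤ r * w (insert e F)) →
    Mon S f → Ex (fun _ => 1 / (1 + r)) S f * ∑ F ∈ S.powerset, w F ≤
      ∑ F ∈ S.powerset, w F * f F := by
  induction S using Finset.induction_on with
  | empty =>
    intro w f _ _ _
    simp [Ex_empty, mul_comm]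
  | insert a S ha ih =>
    intro w f hw hw2 hf
    have hS := subset_insert a S
    have i0 := ih w f (fun F h => hw F (h.trans hS))
      (fun F h e he heF => hw2 F (h.trans hS) e (hS he) heF) hf.low
    have i1 := ih (fun F => w (insert a F)) (fun F => f (insert a F))
      (fun F h => hw _ (insert_subset_insert _ h))
      (fun F h e he heF => by
        rw [Finset.insert_comm]
        refine hw2 _ (insert_subset_insert _ h) e (hS he) ?_
        rw [mem_insert]
        rintro (h1 | h1)
        · exact ha (h1 ▸ he)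
        · exact heF h1) hf.up
    have hEx : Ex (fun _ => 1 / (1 + r)) S f ≤
        Ex (fun _ => 1 / (1 + r)) S (fun F => f (insert a F)) := by
      apply Ex_mono
      · intro _
        constructor
        · positivity
        · rw [div_le_one (by linarith)]
          linarith
      · intro F hF
        exact hf _ _ (subset_insert _ _) (insert_subset_insert _ hF)
    have hW : ∑ F ∈ S.powerset, w F ≤ r * ∑ F ∈ S.powerset, w (insert a F) := by
      rw [mul_sum]
      apply sum_le_sum
      intro F hF
      rw [mem_powerset] at hF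
      exact hw2 F (hF.trans hS) a (mem_insert_self _ _) (fun h => ha (hF h))
    rw [sum_ins ha, sum_ins ha, Ex_insert _ ha]
    set W0 := ∑ F ∈ S.powerset, w F
    set W1 := ∑ F ∈ S.powerset, w (insert a F)
    set E0 := Ex (fun _ => 1 / (1 + r)) S f
    set E1 := Ex (fun _ => 1 / (1 + r)) S (fun F => f (insert a F))
    have h1r : 0 < 1 + r := by linarith
    have key : (1 / (1 + r) * E1 + (1 - 1 / (1 + r)) * E0) * (W0 + W1) ≤ E0 * W0 + E1 * W1 := by
      have e1 : (E0 * W0 + E1 * W1) - (1 / (1 + r) * E1 + (1 - 1 / (1 + r)) * E0) * (W0 + W1) =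
          (E1 - E0) * (r * W1 - W0) / (1 + r) := by
        field_simp
        ring
      have e2 : 0 ≤ (E1 - E0) * (r * W1 - W0) / (1 + r) :=
        div_nonneg (mul_nonneg (by linarith) (by linarith)) h1r.le
      linarith
    exact key.trans (add_le_add i0 i1)

/-- the expectation for the weights `w` -/
noncomputable def Ew (w : Finset E → ℝ) (S : Finset E) (f : Finset E → ℝ) : ℝ :=
  (∑ F ∈ S.powerset, w F * f F) / ∑ F ∈ S.powerset, w F

/-- positive weights, whose ratios are between `1 / r` and `r` -/
structure Rto (S : Finset E) (w : Finset E → ℝ) (r : ℝ) : Prop where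
  one : 1 ≤ r
  pos : ∀ F, F ⊆ S → 0 < w F
  up : ∀ F, F ⊆ S → ∀ e ∈ S, e ∉ F → w (insert e F) ≤ r * w F
  low : ∀ F, F ⊆ S → ∀ e ∈ S, e ∉ F → w F ≤ r * w (insert e F)

theorem Rto.wpos {S : Finset E} {w : Finset E → ℝ} {r : ℝ} (h : Rto S w r) :
    0 < ∑ F ∈ S.powerset, w F :=
  sum_pos (fun F hF => h.pos F (mem_powerset.mp hF)) ⟨∅, empty_mem_powerset _⟩

theorem Rto.ew_le {S : Finset E} {w : Finset E → ℝ} {r : ℝ} (h : Rto S w r) {f : Finset E → ℝ}
    (hf : Mon S f) : Ew w S f ≤ Ex (fun _ => r / (1 + r)) S f := by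
  unfold Ew
  rw [div_le_iff₀ h.wpos]
  exact dom_up (by linarith [h.one]) S w f h.pos h.up hf

theorem Rto.le_ew {S : Finset E} {w : Finset E → ℝ} {r : ℝ} (h : Rto S w r) {f : Finset E → ℝ}
    (hf : Mon S f) : Ex (fun _ => 1 / (1 + r)) S f ≤ Ew w S f := by
  unfold Ew
  rw [le_div_iff₀ h.wpos]
  exact dom_low (by linarith [h.one]) S w f h.pos h.low hf

theorem Ew_add (w : Finset E → ℝ) (S : Finset E) (f g : Finset E → ℝ) :
    Ew w S (fun F => f F + g F) = Ew w S f + Ew w S g := by
  unfold Ew
  rw [← add_div, ← sum_add_distrib]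
  congr 1
  apply sum_congr rfl
  intros; ring

theorem Ew_sub (w : Finset E → ℝ) (S : Finset E) (f g : Finset E → ℝ) :
    Ew w S (fun F => f F - g F) = Ew w S f - Ew w S g := by
  unfold Ew
  rw [← sub_div, ← sum_sub_distrib]
  congr 1
  apply sum_congr rfl
  intros; ring

/-- product measures are increasing in the parameter -/
theorem Ex_param {p p' : ℝ} (h0 : 0 ≤ p) (h : p ≤ p') (h1 : p' ≤ 1) (S : Finset E) :
    ∀ f : Finset E → ℝ, Mon S f → Ex (fun _ => p) S f ≤ Ex (fun _ => p') S f := by
  induction S using Finset.induction_on with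
  | empty => intro f _; simp [Ex_empty]
  | insert a S ha ih =>
    intro f hf
    rw [Ex_insert _ ha, Ex_insert _ ha]
    have i0 := ih f hf.low
    have i1 := ih _ hf.up
    have hEx : Ex (fun _ => p) S f ≤ Ex (fun _ => p) S (fun F => f (insert a F)) := by
      apply Ex_mono
      · intro _
        exact ⟨h0, h.trans h1⟩
      · intro F hF
        exact hf _ _ (subset_insert _ _) (insert_subset_insert _ hF)
    have e1 : p * Ex (fun _ => p) S (fun F => f (insert a F)) + (1 - p) * Ex (fun _ => p) S f ≤
        p' * Ex (fun _ => p) S (fun F => f (insert a F)) + (1 - p') * Ex (fun _ => p) S f := by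
      nlinarith
    have e2 : p' * Ex (fun _ => p) S (fun F => f (insert a F)) ≤
        p' * Ex (fun _ => p') S (fun F => f (insert a F)) :=
      mul_le_mul_of_nonneg_left i1 (by linarith)
    have e3 : (1 - p') * Ex (fun _ => p) S f ≤ (1 - p') * Ex (fun _ => p') S f :=
      mul_le_mul_of_nonneg_left i0 (by linarith)
    linarith

/-- **Comparison of the expectations of an arbitrary function**, controlled by a monotone one. -/
theorem Rto.compare {S : Finset E} {w : Finset E → ℝ} {r : ℝ} (h : Rto S w r)
    {f g : Finset E → ℝ} (hp : Mon S (fun F => g F + f F)) (hm : Mon S (fun F => g F - f F)) :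
    |Ew w S f - Ex (fun _ => 1 / 2) S f| ≤
      2 * (Ex (fun _ => r / (1 + r)) S g - Ex (fun _ => 1 / (1 + r)) S g) := by
  have h1 := h.one
  have hr : 0 < 1 + r := by linarith
  have hg : Mon S g := fun F G a b => by
    have := hp F G a b
    have := hm F G a b
    linarith
  have hlo : 1 / (1 + r) ≤ (1:ℝ) / 2 := by
    rw [div_le_div_iff₀ hr (by norm_num)]
    linarith
  have hhi : (1:ℝ) / 2 ≤ r / (1 + r) := by
    rw [div_le_div_iff₀ (by norm_num) hr]
    linarith
  have hhi1 : r / (1 + r) ≤ 1 := by
    rw [div_le_one hr]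
    linarith
  have hlo0 : 0 ≤ 1 / (1 + r) := by positivity
  have a1 := h.ew_le hp
  have a2 := h.le_ew hp
  have a3 := h.ew_le hm
  have a4 := h.le_ew hm
  have a5 := h.ew_le hg
  have a6 := h.le_ew hg
  rw [Ew_add, Ex_add] at a1 a2
  rw [Ew_sub, Ex_sub] at a3 a4
  have b1 := Ex_param (by norm_num) hhi hhi1 S _ hp
  have b2 := Ex_param hlo0 hlo (by norm_num) S _ hp
  have b3 := Ex_param (by norm_num) hhi hhi1 S _ hm
  have b4 := Ex_param hlo0 hlo (by norm_num) S _ hm
  have b5 := Ex_param (by norm_num) hhi hhi1 S _ hg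
  have b6 := Ex_param hlo0 hlo (by norm_num) S _ hg
  rw [Ex_add, Ex_add] at b1 b2
  rw [Ex_sub, Ex_sub] at b3 b4
  rw [abs_le]
  constructor <;> linarith

/-- a finite family of increasing events controls all the events which it determines -/
theorem mon_of_events {ι : Type*} (I : Finset ι) (S : Finset E) (A : ι → Finset E → Prop)
    (hA : ∀ i ∈ I, ∀ F G, F ⊆ G → G ⊆ S → A i F → A i G) (f : Finset E → ℝ)
    (hf : ∀ F G, (∀ i ∈ I, (A i F ↔ A i G)) → f F = f G) (h01 : ∀ F, 0 ≤ f F ∧ f F ≤ 1) :
    Mon S (fun F => ∑ i ∈ I, ind (A i F) + f F) ∧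
      Mon S (fun F => ∑ i ∈ I, ind (A i F) - f F) := by
  have key : ∀ F G, F ⊆ G → G ⊆ S →
      |f G - f F| ≤ ∑ i ∈ I, ind (A i G) - ∑ i ∈ I, ind (A i F) := by
    intro F G h1 h2
    have hm : ∀ i ∈ I, ind (A i F) ≤ ind (A i G) := fun i hi => ind_mono (hA i hi F G h1 h2)
    by_cases h : ∀ i ∈ I, (A i F ↔ A i G)
    · rw [hf F G h, sub_self, abs_zero]
      have := sum_le_sum hm
      linarith
    · push Not at h
      obtain ⟨i, hi, hne⟩ := h
      have hi2 : ¬ A i F ∧ A i G := by
        rcases hne with ⟨h3, h4⟩ | ⟨h3, h4⟩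
        · exact absurd (hA i hi F G h1 h2 h3) h4
        · exact ⟨h3, h4⟩
      have h5 : 1 ≤ ∑ i ∈ I, ind (A i G) - ∑ i ∈ I, ind (A i F) := by
        rw [← sum_sub_distrib]
        calc (1:ℝ) = ind (A i G) - ind (A i F) := by
              rw [ind_of hi2.2, ind_not_of hi2.1]; norm_num
          _ ≤ _ := single_le_sum (f := fun i => ind (A i G) - ind (A i F))
              (fun j hj => by have := hm j hj; linarith) hi
      have h6 : |f G - f F| ≤ 1 := by
        rw [abs_le]
        constructor <;> linarith [(h01 F).1, (h01 F).2, (h01 G).1, (h01 G).2]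
      linarith
  constructor
  · intro F G h1 h2
    have := key F G h1 h2
    rw [abs_le] at this
    simp only
    linarith [this.1]
  · intro F G h1 h2
    have := key F G h1 h2
    rw [abs_le] at this
    simp only
    linarith [this.2]

/-- the uniform measure -/
theorem Ex_half (S : Finset E) (f : Finset E → ℝ) :
    Ex (fun _ => 1 / 2) S f = (∑ F ∈ S.powerset, f F) / 2 ^ S.card := by
  unfold Ex
  rw [sum_div]
  apply sum_congr rfl
  intro F hF
  rw [mem_powerset] at hF
  rw [prod_const, prod_const, card_sdiff_of_subset hF]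
  have hc := card_le_card hF
  rw [show (1:ℝ) - 1 / 2 = 1 / 2 by norm_num, ← pow_add,
    show F.card + (S.card - F.card) = S.card by omega]
  rw [one_div, inv_pow]
  field_simp

end

end Pool.Agent.X136.NW
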