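import Pool.Agent.X136.NW.Rc
import Pool.Agent.W424.NC.NearC
import Pool.Agent.W424.NC.Stab

set_option autoImplicit false

/-!
# Connection events near the critical point
-/

namespace Pool.Agent.X136.NW

open Finset H974 H12S H973N H985BT

/-- the sum of the influences of a connection event of a rectangle near the critical point -/
theorem near_deriv : ∃ C : ℝ, 1 ≤ C ∧ ∀ M : ℕ, 1 ≤ M → ∀ t : ℝ,
    |t - 1/2| ≤ (M:ℝ) ^ (-(3/4 : ℝ)) / C → ∀ a b c d : ℤ, b - a ≤ M → d - c ≤ M →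
    ∀ (S : Finset Edg) (O : Set Edg) (I J : Set Vtx), Disjoint O ↑S → Off a b c d I J →
    S ⊆ RE a b c d → RE (a + 1) (b - 1) (c + 1) (d - 1) ⊆ S →
    ∑ e ∈ S, PQ t S (Pf (CO I J O) e) ≤ C * (M:ℝ) ^ (3/4 : ℝ) := by
  obtain ⟨κ, C0, hκ, hC0, hst⟩ := Pool.Agent.W424.NC.stabU
  obtain ⟨C1, hC1, hwh⟩ := whitney_sum κ hκ
  obtain ⟨C2, hC2, hwb⟩ := Pool.Agent.W424.NC.W_bounds0 (ε := 0) le_rfl (by norm_num)
  have hp : 0 ≤ C1 * 2 * (C2 * C0) := by positivity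
  refine ⟨4 * C0 + C1 * 2 * (C2 * C0), by linarith, ?_⟩
  intro M hM t ht a b c d hab hcd S O I J hO hOff hSR hfull
  have hM1 : (1:ℝ) ≤ M := by exact_mod_cast hM
  have hM0 : (0:ℝ) < M := by linarith
  have hn : 1 ≤ 4 * M := by omega
  have ht2 : |t - 1/2| ≤ ((4 * M : ℕ) : ℝ) ^ (-(3/4 : ℝ)) / C0 := by
    refine ht.trans ?_
    push_cast
    rw [Real.mul_rpow (by norm_num) hM0.le, div_le_div_iff₀ (by positivity) (by positivity)]
    have h4 : (1:ℝ)/4 ≤ 4 ^ (-(3/4 : ℝ)) := by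
      rw [show (1:ℝ)/4 = 4 ^ (-1 : ℝ) by rw [Real.rpow_neg_one]; norm_num]
      exact Real.rpow_le_rpow_of_exponent_le (by norm_num) (by norm_num)
    have hx : 0 < (M:ℝ) ^ (-(3/4 : ℝ)) := by positivity
    have h5 : (M:ℝ) ^ (-(3/4 : ℝ)) * C0 = 1/4 * ((M:ℝ) ^ (-(3/4 : ℝ)) * (4 * C0)) := by ring
    rw [h5]
    have h6 : 0 ≤ (M:ℝ) ^ (-(3/4 : ℝ)) * (4 * C0) := by positivity
    have h7 : (M:ℝ) ^ (-(3/4 : ℝ)) * (4 * C0) ≤
        (M:ℝ) ^ (-(3/4 : ℝ)) * (4 * C0 + C1 * 2 * (C2 * C0)) :=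
      mul_le_mul_of_nonneg_left (by linarith) hx.le
    calc 1/4 * ((M:ℝ) ^ (-(3/4 : ℝ)) * (4 * C0))
        ≤ 4 ^ (-(3/4 : ℝ)) * ((M:ℝ) ^ (-(3/4 : ℝ)) * (4 * C0 + C1 * 2 * (C2 * C0))) :=
          mul_le_mul h4 h7 h6 (by positivity)
      _ = _ := by ring
  obtain ⟨hW, hA⟩ := hst (4 * M) hn t ht2
  set K := Nat.log 2 M with hK
  have hK1 : 2 ^ K ≤ M := Nat.pow_log_le_self 2 (by omega)
  have hK2 : M < 2 ^ (K + 1) := Nat.lt_pow_succ_log_self (by norm_num) M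
  have hK3 : (M : ℤ) ≤ ((2:ℕ) : ℤ) * 2 ^ K := by
    have : M < 2 * 2 ^ K := by rw [pow_succ] at hK2; omega
    have h2 : (M : ℤ) < 2 * 2 ^ K := by exact_mod_cast this
    push_cast
    linarith
  have h0 : 0 ≤ t := by linarith [hW.lo]
  have h1 : t ≤ 1 := by linarith [hW.hi]
  have hs := hwh t (4 * M) hW a b c d K 2 (by norm_num) (by omega) (by linarith) (by linarith)
    S I J O hO hOff S (Finset.Subset.refl _) hSR (fun g _ e he _ => hfull he)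
  refine hs.trans ?_
  have hw1 := (hwb t C0 K h0 h1 hC0 (a4le_dyadic (by linarith) (by norm_num) hA (by omega))).1
  rw [add_zero] at hw1
  have hpow : ((2:ℝ) ^ K) ^ (3/4 : ℝ) ≤ (M:ℝ) ^ (3/4 : ℝ) := by
    apply Real.rpow_le_rpow (by positivity) _ (by norm_num)
    exact_mod_cast hK1
  have hMp : 0 < (M:ℝ) ^ (3/4 : ℝ) := by positivity
  calc C1 * ((2:ℕ):ℝ) * W1s t K ≤ C1 * 2 * (C2 * C0 * ((2:ℝ) ^ K) ^ (3/4 : ℝ)) := by
        push_cast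
        exact mul_le_mul_of_nonneg_left hw1 (by positivity)
    _ ≤ C1 * 2 * (C2 * C0 * (M:ℝ) ^ (3/4 : ℝ)) := by
        apply mul_le_mul_of_nonneg_left _ (by positivity)
        exact mul_le_mul_of_nonneg_left hpow (by positivity)
    _ = C1 * 2 * (C2 * C0) * (M:ℝ) ^ (3/4 : ℝ) := by ring
    _ ≤ _ := mul_le_mul_of_nonneg_right (by linarith) hMp.le

theorem co_mono {I J : Set Vtx} {O : Set Edg} : ∀ F F' : Finset Edg, F ⊆ F' →
    CO I J O F → CO I J O F' := by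
  intro F F' hF h
  obtain ⟨u, hu, v, hv, h⟩ := h
  exact ⟨u, hu, v, hv, h.mono (Set.union_subset_union_left _ (by exact_mod_cast hF))⟩

/-- the variation of the probability of a connection event in the near-critical window -/
theorem near_diff : ∃ C : ℝ, 1 ≤ C ∧ ∀ M : ℕ, 1 ≤ M → ∀ δ : ℝ, 0 ≤ δ →
    δ ≤ (M:ℝ) ^ (-(3/4 : ℝ)) / C → ∀ a b c d : ℤ, b - a ≤ M → d - c ≤ M →
    ∀ (S : Finset Edg) (O : Set Edg) (I J : Set Vtx), Disjoint O ↑S → Off a b c d I J →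
    S ⊆ RE a b c d → RE (a + 1) (b - 1) (c + 1) (d - 1) ⊆ S →
    PQ (1/2 + δ) S (CO I J O) - PQ (1/2 - δ) S (CO I J O) ≤ 2 * C * δ * (M:ℝ) ^ (3/4 : ℝ) := by
  obtain ⟨C, hC, hd⟩ := near_deriv
  refine ⟨C, hC, ?_⟩
  intro M hM δ hδ hδ2 a b c d hab hcd S O I J hO hOff hSR hfull
  have hder := fun t : ℝ => deriv_f S (CO I J O) co_mono t
  have h := (convex_Icc (1/2 - δ) (1/2 + δ)).image_sub_le_mul_sub_of_deriv_le
    (f := fun t => PQ t S (CO I J O)) (C := C * (M:ℝ) ^ (3/4 : ℝ))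
    (fun t _ => (hder t).continuousAt.continuousWithinAt)
    (fun t _ => (hder t).differentiableAt.differentiableWithinAt)
    (by
      intro t ht
      rw [interior_Icc] at ht
      rw [(hder t).deriv]
      refine hd M hM t ?_ a b c d hab hcd S O I J hO hOff hSR hfull
      refine le_trans ?_ hδ2
      rw [abs_le]
      constructor <;> linarith [ht.1, ht.2])
    (1/2 - δ) ⟨le_rfl, by linarith⟩ (1/2 + δ) ⟨by linarith, le_rfl⟩ (by linarith)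
  calc PQ (1/2 + δ) S (CO I J O) - PQ (1/2 - δ) S (CO I J O)
      ≤ C * (M:ℝ) ^ (3/4 : ℝ) * (1/2 + δ - (1/2 - δ)) := h
    _ = _ := by ring

/-- the variation for all the deviations -/
theorem near_all : ∃ C : ℝ, 1 ≤ C ∧ ∀ M : ℕ, 1 ≤ M → ∀ δ : ℝ, 0 ≤ δ → δ ≤ 1/2 →
    ∀ a b c d : ℤ, b - a ≤ M → d - c ≤ M →
    ∀ (S : Finset Edg) (O : Set Edg) (I J : Set Vtx), Disjoint O ↑S → Off a b c d I J →
    S ⊆ RE a b c d → RE (a + 1) (b - 1) (c + 1) (d - 1) ⊆ S →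
    PQ (1/2 + δ) S (CO I J O) - PQ (1/2 - δ) S (CO I J O) ≤ C * δ * (M:ℝ) ^ (3/4 : ℝ) := by
  obtain ⟨C, hC, hd⟩ := near_diff
  refine ⟨2 * C, by linarith, ?_⟩
  intro M hM δ hδ hδ2 a b c d hab hcd S O I J hO hOff hSR hfull
  have hM1 : (1:ℝ) ≤ M := by exact_mod_cast hM
  have hM0 : (0:ℝ) < M := by linarith
  by_cases h : δ ≤ (M:ℝ) ^ (-(3/4 : ℝ)) / C
  · exact hd M hM δ hδ h a b c d hab hcd S O I J hO hOff hSR hfull
  · push Not at h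
    have hp1 : Ok (fun _ : Edg => 1/2 + δ) := fun _ => ⟨by linarith, by linarith⟩
    have hp2 : Ok (fun _ : Edg => 1/2 - δ) := fun _ => ⟨by linarith, by linarith⟩
    have e1 : PQ (1/2 + δ) S (CO I J O) ≤ 1 := Pr_le_one hp1 _ _
    have e2 : 0 ≤ PQ (1/2 - δ) S (CO I J O) := Pr_nonneg hp2 _ _
    have hMp : 0 < (M:ℝ) ^ (3/4 : ℝ) := by positivity
    have e3 : 1 < C * δ * (M:ℝ) ^ (3/4 : ℝ) := by
      rw [div_lt_iff₀ (by linarith)] at h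
      have : (M:ℝ) ^ (-(3/4 : ℝ)) * (M:ℝ) ^ (3/4 : ℝ) = 1 := by
        rw [← Real.rpow_add hM0]; norm_num
      calc (1:ℝ) = (M:ℝ) ^ (-(3/4 : ℝ)) * (M:ℝ) ^ (3/4 : ℝ) := this.symm
        _ < δ * C * (M:ℝ) ^ (3/4 : ℝ) := mul_lt_mul_of_pos_right h hMp
        _ = _ := by ring
    nlinarith

end Pool.Agent.X136.NW
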