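import Pool.Agent.X136.NW.Main

set_option autoImplicit false

/-!
# Crossings and arms in the near-critical window
-/

namespace Pool.Agent.X136.NW

open Finset H974 H12S H973N H985BT
open Pool.Agent.X136.NW.Model

theorem armAt_mono {m k n : ℕ} {v : Vtx} : ∀ F G : Finset Edg, F ⊆ G → ArmAt m k n v F →
    ArmAt m k n v G := fun _ _ h hF => joined_mono h hF

theorem crossed_mono {m k : ℕ} {a b c d : ℤ} : ∀ F G : Finset Edg, F ⊆ G → Crossed m k a b c d F →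
    Crossed m k a b c d G := fun _ _ h hF => joined_mono h hF

theorem pr_armAt {m k n : ℕ} (hn : 1 ≤ n) {v : Vtx} (h1 : n < v.1) (h2 : v.1 + n ≤ m)
    (h3 : n < v.2) (h4 : v.2 + n ≤ k) (t : ℝ) :
    Pr (fun _ => t) (bulk m k) (ArmAt m k n v) = arm t n := by
  rw [← pr_shift_arm t (x1 := v.1) (x2 := v.2) (n := n) (S := bulk m k)
    (re_bulk (by omega) h2 (by omega) h4)]
  apply Pr_congr
  intro F _
  exact arm_iff hn h1 h2 h3 h4 F

theorem pr_crossed {m k : ℕ} {a b c d : ℤ} (ha : 1 ≤ a) (hab : a < b) (hb : b ≤ m) (hc : 1 ≤ c)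
    (hd : d ≤ k) (t : ℝ) :
    Pr (fun _ => t) (bulk m k) (Crossed m k a b c d) = hh t (b - a) (d - c) := by
  rw [← pr_LRc t (S := bulk m k) (LRE_subset_RE.trans (re_bulk ha hb hc hd))]
  apply Pr_congr
  intro F _
  exact crossed_iff ha hab hb hc hd F

/-- **Crossings and arms in the window `|q - 1| ≤ β n ^ (-3/4)`.** -/
theorem window : ∃ κ β c C : ℝ, 0 < κ ∧ 0 < β ∧ 0 < c ∧ 0 < C ∧ ∀ n : ℕ, 1 ≤ n → ∀ q : ℝ, 0 < q →
    |q - 1| ≤ β * (n:ℝ) ^ (-(3/4) : ℝ) → ∀ m k : ℕ,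
    (∀ v : Vtx, n < v.1 → v.1 + n ≤ m → n < v.2 → v.2 + n ≤ k →
      c * (n:ℝ) ^ (-(5/48) : ℝ) ≤ rcP q m k (ArmAt m k n v) ∧
      rcP q m k (ArmAt m k n v) ≤ C * (n:ℝ) ^ (-(5/48) : ℝ)) ∧
    ∀ a b a' b' : ℤ, 1 ≤ a → a < b → b ≤ m → 1 ≤ a' → a' < b' → b' ≤ k →
      (b' - a' ≤ n → b - a ≤ 16 * (b' - a') → κ ≤ rcP q m k (Crossed m k a b a' b')) ∧
      (b - a ≤ n → b' - a' + 1 ≤ 16 * (b - a - 1) → rcP q m k (Crossed m k a b a' b') ≤ 1 - κ) := by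
  obtain ⟨κ, β, hκ, hβ, hst⟩ := Pool.Agent.W424.NC.armS
  obtain ⟨c, C, hc, hC, hcr⟩ := Pool.Agent.W424.NC.arm_crit
  refine ⟨κ, 2 * β, c / 3, 3 * C, hκ, by positivity, by positivity, by positivity, ?_⟩
  intro n hn q hq hq1 m k
  obtain ⟨d0, d1, d2, d3, d4⟩ := dev_spec hq
  have hdev : dev q ≤ β * (n:ℝ) ^ (-(3/4) : ℝ) := by linarith
  obtain ⟨wm, am1, am2⟩ := hst n hn (1/2 - dev q) (by
    rw [show 1/2 - dev q - 1/2 = - dev q by ring, abs_neg, abs_of_nonneg d0]; exact hdev)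
  obtain ⟨wp, ap1, ap2⟩ := hst n hn (1/2 + dev q) (by
    rw [show 1/2 + dev q - 1/2 = dev q by ring, abs_of_nonneg d0]; exact hdev)
  obtain ⟨c1, c2⟩ := hcr n hn
  refine ⟨?_, ?_⟩
  · intro v h1 h2 h3 h4
    obtain ⟨s1, s2⟩ := rcP_sandwich hq m k (A := ArmAt m k n v) armAt_mono
    rw [pr_armAt hn h1 h2 h3 h4] at s1 s2
    constructor
    · have : c / 3 * (n:ℝ) ^ (-(5/48) : ℝ) = (c * (n:ℝ) ^ (-(5/48) : ℝ)) / 3 := by ring
      rw [this]
      linarith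
    · have : 3 * C * (n:ℝ) ^ (-(5/48) : ℝ) = 3 * (C * (n:ℝ) ^ (-(5/48) : ℝ)) := by ring
      rw [this]
      linarith
  · intro a b a' b' ha hab hb ha' hab' hb'
    obtain ⟨s1, s2⟩ := rcP_sandwich hq m k (A := Crossed m k a b a' b') crossed_mono
    rw [pr_crossed ha hab hb ha' hb'] at s1 s2
    have hh0 : 0 ≤ 1/2 - dev q := by linarith
    have hh1 : 1/2 - dev q ≤ 1 := by linarith
    constructor
    · intro h1 h2
      obtain ⟨h, hh⟩ : ∃ h : ℕ, (h:ℤ) = b' - a' := ⟨(b' - a').toNat, by omega⟩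
      have k1 := wm.pri h (by omega) (by omega)
      have k2 := hh_mono hh0 hh1 (w := 16 * (h:ℤ)) (w' := b - a) (h := h) (h' := b' - a')
        (by omega) (by omega) (by omega)
      linarith
    · intro h1 h2
      obtain ⟨h, hh⟩ : ∃ h : ℕ, (h:ℤ) = b - a - 1 := ⟨(b - a - 1).toNat, by omega⟩
      have k1 := wp.dua h (by omega) (by omega)
      rw [hh_dual (by omega) (by omega)] at s2
      rw [show (1:ℝ) - (1/2 + dev q) = 1/2 - dev q by ring] at k1 s2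
      have k2 := hh_mono hh0 hh1 (w := 16 * (h:ℤ)) (w' := b' - a' + 1) (h := h) (h' := b - a - 1)
        (by omega) (by omega) (by omega)
      linarith

end Pool.Agent.X136.NW
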